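import Pool.Agent.H84.ND.Targets2
import Pool.Agent.H77.SM.DIV

/-!
# DVN: division by a factor, for irreducible curves
-/

set_option autoImplicit false

namespace Pool.Agent.H37.ND

open MvPolynomial SC Pool.Agent.H27.LV Pool.Agent.H84.SM Pool.Agent.H84.ND

open Pool.Agent.H77.SM

theorem pf_DVN (hORN : T_ORN) (hGPN : T_GPN) (hPSG : Pool.Agent.H84.SM.T_PSG)
    (hINV : Pool.Agent.H84.SM.T_INV) (hHOM : Pool.Agent.H84.SM.T_HOM) :
    Pool.Agent.H84.ND.T_DVN := by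
  intro k _ _ _ G d hG e m M' P hP hnd hdv n M τ N hN hS
  obtain ⟨hI, ⟨e₀, he₀, hB⟩, hΨ⟩ := hS
  obtain ⟨hpr, -, -, -, -⟩ := hGPN k G d hG
  have hP0 : P ≠ 0 := by
    rintro rfl
    exact hnd (by rw [map_zero]; exact dvd_zero _)
  have hPN : P * N ≠ 0 := mul_ne_zero hP0 hN
  have hNP : N * P ≠ 0 := mul_ne_zero hN hP0
  have hIN : Inv N := (hINV k).2 N P hNP (by rw [mul_comm]; exact hI)
  obtain ⟨e1, n1, e2, n2, h1, h2, h3, h4⟩ := hHOM k e₀ n P N hPN hB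
  obtain ⟨h5, h6⟩ := Pool.Agent.H77.SM.BHN.uniq h3 hP hP0
  subst h5 h6
  have hmn : n1 ≤ n := by omega
  have hn2 : n - n1 = n2 := by omega
  refine ⟨hmn, Pool.Agent.H77.SM.Inv.gR_pow M' hIN, ⟨e2 + d * M', ?_, ?_⟩, fun l => ?_⟩
  · have h7 : (e₀ : ℤ) = e1 + e2 := by rw [← h1]; push_cast; ring
    have h8 : (n : ℤ) = n1 + n2 := by rw [← h2]; push_cast; ring
    rw [hn2]
    push_cast
    rw [h7, h8] at he₀
    linarith
  · rw [hn2]
    exact Pool.Agent.H77.SM.BHN.gR_pow hG.hom M' h4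
  · have h7 := hORN k G d hG e1 n1 M' P hP 0 l hdv
    have h8 : ¬ gp G ^ (M' + 1) ∣ Psi G d l P := fun h =>
      hnd (hORN k G d hG e1 n1 (M' + 1) P hP l 0 h)
    obtain ⟨u, hu⟩ := h7
    have hu' : ¬ gp G ∣ u := by
      rintro ⟨v, hv⟩
      exact h8 ⟨v, by rw [hu, hv, pow_succ]; ring⟩
    have h9 : Psi G d l (gR G ^ M' * N) = gp G ^ M' * Psi G d l N := by
      rw [map_mul, map_pow, (hPSG k G d l).1]
    rw [h9]
    refine hpr.pow_dvd_of_dvd_mul_left M hu' ?_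
    have h10 := hΨ l
    rw [map_mul, hu] at h10
    have h11 : u * (gp G ^ M' * Psi G d l N) = gp G ^ M' * u * Psi G d l N := by ring
    rw [h11]
    exact h10

end Pool.Agent.H37.ND
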