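import Pool.Agent.H84.ND.Targets2
import Pool.Agent.H88.SM.INT

/-!
# INN: sections are regular at the places of a curve, if the derivation is logarithmic
-/

set_option autoImplicit false

namespace Pool.Agent.H37.ND

open MvPolynomial SC Pool.Agent.H27.LV Pool.Agent.H84.SM Pool.Agent.H84.ND

open Pool.Agent.H88.SM

theorem pf_INN (hJPC : Pool.Agent.H84.SM.T_JPC) (hVAL : Pool.Agent.H84.SM.T_VAL) :
    Pool.Agent.H84.ND.T_INN := by
  intro k K _ _ _ _ _ G d hd hG v θ x hθ hx hl hGx hlc n M τ N hN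
  obtain ⟨l, hl0, hl1⟩ := hl
  obtain ⟨hinv, ⟨e, -, hBH⟩, hdiv⟩ := hN
  obtain ⟨N1, hN1⟩ := hdiv l
  obtain ⟨hJP, -, hev⟩ := hJPC k K G d θ x hd hG hGx
  have h1 := hev e n N hinv hBH
  have hg : (gr G x l)⁻¹ * gr G x l = 1 := inv_mul_cancel₀ hl0
  obtain ⟨h2, h3⟩ := hVAL k G d hG K x (qc G d θ x) (sc G d θ x) l (gr G x l)⁻¹ hJP hg N
  rw [hN1, map_mul, map_pow, h3, h1] at h2
  have h4 : evc θ x N / aeval x G ^ M = evl l (gr G x l)⁻¹ x (qc G d θ x) (sc G d θ x) N1 := by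
    rw [← h2, mul_comm, mul_div_assoc, div_self (pow_ne_zero _ hGx), mul_one]
  rw [h4, ge_iff]
  have hθ' : ∀ z ∈ v.vs, θ z ∈ v.vs := fun z hz => (ge_iff v _).1 (hθ z hz)
  have hlc' : lc G d θ x ∈ v.vs := by
    have h5 : lc G d θ x = θ (aeval x G) / aeval x G * (algebraMap k K (d : k))⁻¹ := by
      unfold lc
      rw [map_natCast, div_mul_eq_div_div_swap, div_eq_mul_inv]
    rw [h5]
    refine v.vs.mul_mem _ _ ((ge_iff v _).1 hlc) ?_
    rw [DV.mem_vs, v.ord_inv, v.ord_base, neg_zero]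
  have hq : ∀ i, qc G d θ x i ∈ v.vs := fun i => by
    unfold qc
    exact sub_mem (hθ' _ (hx i)) (v.vs.mul_mem _ _ hlc' (hx i))
  have hq' : ∀ i, θ (qc G d θ x i) - lc G d θ x * qc G d θ x i ∈ v.vs := fun i =>
    sub_mem (hθ' _ (hq i)) (v.vs.mul_mem _ _ hlc' (hq i))
  refine evl_mem v l _ x _ _ hx hq (fun i => ?_) ?_ N1
  · unfold sc cr
    exact sub_mem (v.vs.mul_mem _ _ (hq _) (hq' _)) (v.vs.mul_mem _ _ (hq _) (hq' _))
  · rw [DV.mem_vs, v.ord_inv, hl1, neg_zero]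

end Pool.Agent.H37.ND
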